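import Pool.Agent.Lib.MP_efa98f_al.Reduce

namespace Pool.Agent.Lib.MP_efa98f_al.F4

/-- The word for the left diagonal block: `W1 = u(i) l(j)`. -/
theorem side1 (c1 c2 δ α1 α2 : ℤ) (hδ : δ ≠ 0) (h : ∃ r s t : ℤ, r * c1 + s * c2 + t * δ = 1)
    (hα : IsCoprime α1 α2) :
    ∃ i j : ℤ, δ ∣ 1 - (c1 + j * (c2 + i * c1)) ∧ α2 - j * (α1 - i * α2) ≠ 0 ∧
      (¬ (2 : ℤ) ∣ δ → ¬ (2 : ℤ) ∣ α2 - j * (α1 - i * α2)) ∧
      IsCoprime (α1 - i * α2) (α2 - j * (α1 - i * α2)) := by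
  obtain ⟨r, s, t, hrst⟩ := h
  obtain ⟨x, hx⟩ := exists_coprime_shift c2 c1 δ hδ ⟨s, r, t, by linear_combination hrst⟩
  obtain ⟨μ, ν, hμν⟩ := hx
  obtain ⟨a1, ha1⟩ : ∃ a1, a1 = α1 - (-x) * α2 := ⟨_, rfl⟩
  obtain ⟨c2', hc2'⟩ : ∃ c2', c2' = c2 + (-x) * c1 := ⟨_, rfl⟩
  obtain ⟨j0, hj0⟩ : ∃ j0, j0 = μ * (1 - c1) := ⟨_, rfl⟩
  obtain ⟨β, hβ⟩ : ∃ β, β = α2 - j0 * a1 := ⟨_, rfl⟩
  obtain ⟨m, n, hmn⟩ := hα
  have hcop : IsCoprime a1 β := by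
    refine ⟨m + (n + x * (-m)) * j0, n + x * (-m), ?_⟩
    rw [hβ, ha1]; linear_combination hmn
  have hdiv : ∀ τ : ℤ, δ ∣ 1 - (c1 + (j0 + δ * τ) * (c2 + (-x) * c1)) := by
    intro τ
    refine ⟨(1 - c1) * ν - τ * (c2 + (-x) * c1), ?_⟩
    rw [hj0]; linear_combination (-(1 - c1)) * hμν
  have hcop' : ∀ τ : ℤ, IsCoprime a1 (α2 - (j0 + δ * τ) * a1) := by
    intro τ
    obtain ⟨m', n', h'⟩ := hcop
    refine ⟨m' + n' * (δ * τ), n', ?_⟩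
    rw [hβ] at h'
    linear_combination h'
  have main : ∃ τ : ℤ, β - δ * τ * a1 ≠ 0 ∧ (¬ (2 : ℤ) ∣ δ → ¬ (2 : ℤ) ∣ β - δ * τ * a1) := by
    by_cases hβ2 : (2 : ℤ) ∣ β
    · have ha2 : ¬ (2 : ℤ) ∣ a1 := by
        intro h2
        obtain ⟨m', n', h'⟩ := hcop
        have h3 : (2 : ℤ) ∣ 1 := by
          rw [← h']; exact dvd_add (h2.mul_left _) (hβ2.mul_left _)
        omega
      by_cases hδ2 : (2 : ℤ) ∣ δ
      · by_cases hβ0 : β = 0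
        · refine ⟨1, ?_, fun h => absurd hδ2 h⟩
          rw [hβ0]
          intro h0
          have : δ * a1 = 0 := by linarith
          rcases mul_eq_zero.mp this with h' | h'
          · exact hδ h'
          · exact ha2 (by rw [h']; exact dvd_zero _)
        · exact ⟨0, by simpa using hβ0, fun h => absurd hδ2 h⟩
      · have hodd : ¬ (2 : ℤ) ∣ β - δ * 1 * a1 := by
          intro h2
          have h3 : (2 : ℤ) ∣ δ * a1 := by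
            have := dvd_sub hβ2 h2
            have e : β - (β - δ * 1 * a1) = δ * a1 := by ring
            rwa [e] at this
          rcases (Int.prime_two.dvd_mul).mp h3 with h' | h'
          · exact hδ2 h'
          · exact ha2 h'
        refine ⟨1, fun h0 => hodd (by rw [h0]; exact dvd_zero _), fun _ => hodd⟩
    · refine ⟨0, ?_, ?_⟩
      · intro h0
        apply hβ2
        have : β = 0 := by linarith
        rw [this]; exact dvd_zero _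
      · intro _ h2
        apply hβ2
        have e : β - δ * 0 * a1 = β := by ring
        rwa [e] at h2
  obtain ⟨τ, h1, h2⟩ := main
  have e : α2 - (j0 + δ * τ) * (α1 - (-x) * α2) = β - δ * τ * a1 := by
    rw [hβ, ha1]; ring
  refine ⟨-x, j0 + δ * τ, hdiv τ, ?_, ?_, ?_⟩
  · rw [e]; exact h1
  · rw [e]; exact h2
  · rw [← ha1]; exact hcop' τ

/-- The word for the right diagonal block: `W2 = l(-j) u(-i) l(k) u(-l)`. -/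
theorem side2 (x y δ p q Q : ℤ) (hδ : δ ≠ 0) (h : ∃ r s t : ℤ, r * x + s * y + t * δ = 1)
    (hpq : IsCoprime p q) (hQ : Q ≠ 0) :
    ∃ j i k l y2 x3 y4 x5 p2 q3 p4 q5 : ℤ, y2 = y + j * x ∧ x3 = x + i * y2 ∧ y4 = y2 - k * x3 ∧
      x5 = x3 + l * y4 ∧ p2 = p - j * q ∧ q3 = q - i * p2 ∧ p4 = p2 + k * q3 ∧ q5 = q3 - l * p4 ∧
      δ ∣ 1 + x5 ∧ IsCoprime q5 Q ∧ IsCoprime p4 q5 := by
  obtain ⟨r, s, t, hrst⟩ := h
  obtain ⟨w, hw⟩ := exists_coprime_shift y x δ hδ ⟨s, r, t, by linear_combination hrst⟩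
  obtain ⟨μ, ν, hμν⟩ := hw
  obtain ⟨y2, hy2⟩ : ∃ y2, y2 = y + (-w) * x := ⟨_, rfl⟩
  obtain ⟨i, hi⟩ : ∃ i, i = -μ * (1 + x) := ⟨_, rfl⟩
  obtain ⟨x3, hx3⟩ : ∃ x3, x3 = x + i * y2 := ⟨_, rfl⟩
  obtain ⟨y4, hy4⟩ : ∃ y4, y4 = y2 - (-y2) * x3 := ⟨_, rfl⟩
  obtain ⟨p2, hp2⟩ : ∃ p2, p2 = p - (-w) * q := ⟨_, rfl⟩
  obtain ⟨q3, hq3⟩ : ∃ q3, q3 = q - i * p2 := ⟨_, rfl⟩
  obtain ⟨p4, hp4⟩ : ∃ p4, p4 = p2 + (-y2) * q3 := ⟨_, rfl⟩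
  obtain ⟨a, b, hab⟩ := hpq
  -- `a' p4 + b' q3 = 1`
  have hc1 : ∃ a1 b1 : ℤ, a1 * p2 + b1 * q = 1 := ⟨a, b - a * w, by rw [hp2]; linear_combination hab⟩
  obtain ⟨a1, b1, h1⟩ := hc1
  have hc2 : ∃ a2 b2 : ℤ, a2 * p2 + b2 * q3 = 1 := ⟨a1 + b1 * i, b1, by
    rw [hq3]; linear_combination h1⟩
  obtain ⟨a2, b2, h2⟩ := hc2
  have hc3 : ∃ a3 b3 : ℤ, a3 * p4 + b3 * q3 = 1 := ⟨a2, b2 + a2 * y2, by
    rw [hp4]; linear_combination h2⟩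
  obtain ⟨a3, b3, h3⟩ := hc3
  obtain ⟨l, hl⟩ := exists_coprime_shift q3 p4 Q hQ ⟨b3, a3, 0, by linear_combination h3⟩
  have hdx3 : δ ∣ 1 + x3 := by
    refine ⟨(1 + x) * ν, ?_⟩
    rw [hx3, hi, hy2]; linear_combination (-(1 + x)) * hμν
  have hdy4 : δ ∣ y4 := by
    have e : y4 = y2 * (1 + x3) := by rw [hy4]; ring
    rw [e]; exact hdx3.mul_left _
  refine ⟨-w, i, -y2, l, y2, x3, y4, x3 + l * y4, p2, q3, p4, q3 - l * p4, hy2, hx3, hy4, rfl, hp2,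
    hq3, hp4, rfl, ?_, ?_, ?_⟩
  · rw [← add_assoc]; exact dvd_add hdx3 (hdy4.mul_left _)
  · rwa [mul_comm]
  · exact ⟨a3 + b3 * l, b3, by linear_combination h3⟩

/-- The two linear equations. -/
theorem crt (p q a b E1 E2 π : ℤ) (h1 : IsCoprime p q) (h2 : IsCoprime a b)
    (h3 : IsCoprime q (2 * b)) :
    ∃ z11 z21 z12 : ℤ, p * z11 + q * z21 = E1 ∧ a * z11 + b * z12 = E2 ∧
      (¬ (2 : ℤ) ∣ b → (2 : ℤ) ∣ z11 - π) := by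
  obtain ⟨u, v, huv⟩ := h1
  obtain ⟨c, d, hcd⟩ := h2
  obtain ⟨r, s, hrs⟩ := h3
  obtain ⟨z0, hz0⟩ : ∃ z0, z0 = u * E1 * (2 * s * b) + c * E2 * (r * q) := ⟨_, rfl⟩
  obtain ⟨τ, hτ⟩ : ∃ τ, τ = π - z0 := ⟨_, rfl⟩
  refine ⟨z0 + q * b * τ, v * E1 - p * r * (c * E2 - u * E1) * (-1) * (-1) - p * b * τ,
    d * E2 - a * (2 * s) * (u * E1 - c * E2) - a * q * τ, ?_, ?_, ?_⟩
  · rw [hz0]; linear_combination E1 * huv + p * u * E1 * hrs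
  · rw [hz0]; linear_combination E2 * hcd + a * c * E2 * hrs
  · intro hb
    have hq : ¬ (2 : ℤ) ∣ q := by
      intro hq
      have : (2 : ℤ) ∣ 1 := by
        rw [← hrs]; exact dvd_add (hq.mul_left _) ((Dvd.intro _ rfl : (2:ℤ) ∣ 2 * b).mul_left _)
      omega
    have hqb : ¬ (2 : ℤ) ∣ q * b := by
      intro h
      rcases (Int.prime_two.dvd_mul).mp h with h' | h'
      · exact hq h'
      · exact hb h'
    obtain ⟨w, hw⟩ : ∃ w : ℤ, q * b = 2 * w + 1 := ⟨q * b / 2, by omega⟩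
    refine ⟨w * τ, ?_⟩
    rw [show z0 + q * b * τ - π = (q * b - 1) * τ by rw [hτ]; ring, hw]; ring

/-- Make the first row nonzero, and nonzero modulo two if possible. -/
theorem vrow (p q r s : ℤ) (h : ¬ (p = 0 ∧ q = 0 ∧ r = 0 ∧ s = 0)) :
    ∃ v : ℤ, ¬ (p + v * r = 0 ∧ q + v * s = 0) ∧
      (¬ ((2 : ℤ) ∣ p ∧ (2 : ℤ) ∣ q ∧ (2 : ℤ) ∣ r ∧ (2 : ℤ) ∣ s) →
        ¬ ((2 : ℤ) ∣ p + v * r ∧ (2 : ℤ) ∣ q + v * s)) := by
  by_cases h2 : (2 : ℤ) ∣ p ∧ (2 : ℤ) ∣ q ∧ (2 : ℤ) ∣ r ∧ (2 : ℤ) ∣ s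
  · by_cases h0 : p = 0 ∧ q = 0
    · refine ⟨1, ?_, fun h' => absurd h2 h'⟩
      rintro ⟨h3, h4⟩
      exact h ⟨h0.1, h0.2, by linarith [h0.1], by linarith [h0.2]⟩
    · exact ⟨0, by simpa using h0, fun h' => absurd h2 h'⟩
  · by_cases h0 : (2 : ℤ) ∣ p ∧ (2 : ℤ) ∣ q
    · have key : ¬ ((2 : ℤ) ∣ p + 1 * r ∧ (2 : ℤ) ∣ q + 1 * s) := by
        rintro ⟨h3, h4⟩
        exact h2 ⟨h0.1, h0.2, by omega, by omega⟩
      refine ⟨1, ?_, fun _ => key⟩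
      rintro ⟨h3, h4⟩
      exact key ⟨by rw [h3]; exact dvd_zero _, by rw [h4]; exact dvd_zero _⟩
    · refine ⟨0, ?_, fun _ => ?_⟩
      · rintro ⟨h3, h4⟩
        apply h0
        constructor
        · rw [show p = 0 by linarith]; exact dvd_zero _
        · rw [show q = 0 by linarith]; exact dvd_zero _
      · simpa using h0

end Pool.Agent.Lib.MP_efa98f_al.F4
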