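import Pool.Agent.Lib.MP_efa98f_al.W11.FourW
import Pool.Agent.Lib.MP_efa98f_al.W11.Words

namespace Pool.Agent.Lib.MP_efa98f_al.F4

open Matrix

theorem prim (a b : ℤ) (h : ¬ (a = 0 ∧ b = 0)) :
    ∃ δ α β : ℤ, δ ≠ 0 ∧ a = δ * α ∧ b = δ * β ∧ IsCoprime α β := by
  have hg : 0 < Int.gcd a b := by
    rw [Nat.pos_iff_ne_zero]
    intro h0
    exact h (Int.gcd_eq_zero_iff.mp h0)
  obtain ⟨m, n, h1, h2, h3⟩ := Int.exists_gcd_one hg
  refine ⟨Int.gcd a b, m, n, by exact_mod_cast hg.ne', by linear_combination h2,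
    by linear_combination h3, ?_⟩
  rw [Int.isCoprime_iff_gcd_eq_one]
  exact h1

/-- Parity of the determinant of `Y`, second case. -/
theorem parity2 (c1 c2 c3 c4 p q r s z11 z21 z12 b1 b2 d1 d2 : ℤ) (hq : ¬ (2 : ℤ) ∣ q)
    (hY : c1 + p * z11 + q * z21 = 1) (hu1 : c1 * b1 + c2 * b2 + p * d1 + q * d2 = 0)
    (hu2 : c3 * b1 + c4 * b2 + r * d1 + s * d2 = 1)
    (hπ : (2 : ℤ) ∣ z11 - (1 + s * c1 + q * c3)) :
    ∃ z22 : ℤ, ¬ (2 : ℤ) ∣ (c4 + r * z12 + s * z22) -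
      (c2 + p * z12 + q * z22) * (c3 + r * z11 + s * z21) := by
  obtain ⟨w, hw⟩ : ∃ w, q = 2 * w + 1 := ⟨q / 2, by omega⟩
  obtain ⟨Y, hYd⟩ : ∃ Y, Y = c3 + r * z11 + s * z21 := ⟨_, rfl⟩
  have he : s - q * Y = s * c1 - q * c3 + z11 * (p * s - q * r) := by
    rw [hYd]; linear_combination (-s) * hY
  rw [← hYd]
  by_cases hE : (2 : ℤ) ∣ s - q * Y
  · refine ⟨0, ?_⟩
    obtain ⟨e, he'⟩ := hE
    have hd : (2 : ℤ) ∣ p * s - q * r := by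
      by_contra hd
      obtain ⟨k, hk⟩ : ∃ k, p * s - q * r = 2 * k + 1 := ⟨(p * s - q * r) / 2, by omega⟩
      obtain ⟨π', hπ'⟩ := hπ
      have : 2 * (e - s * c1 - k * z11 - π') = 1 := by
        rw [hk] at he
        linear_combination he - he' + hπ'
      omega
    obtain ⟨m, hm⟩ := hd
    -- `c3 ≡ s c1`, `r ≡ s p`, `Y ≡ s`
    have h1 : (2 : ℤ) ∣ c3 - s * c1 := ⟨-e + z11 * m - w * c3, by
      rw [he', hm, hw] at he; linear_combination he⟩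
    have h2 : (2 : ℤ) ∣ r - s * p := ⟨-m - w * r, by
      rw [hw] at hm; linear_combination -hm⟩
    have h3 : (2 : ℤ) ∣ s - Y := ⟨e + w * Y, by
      rw [hw] at he'; linear_combination he'⟩
    have h4 : ¬ (2 : ℤ) ∣ c4 - s * c2 := by
      intro h4
      have h5 : (2 : ℤ) ∣ (c3 - s * c1) * b1 + (c4 - s * c2) * b2 + (r - s * p) * d1 +
          (2 * w) * (-s * d2) :=
        dvd_add (dvd_add (dvd_add (h1.mul_right _) (h4.mul_right _)) (h2.mul_right _))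
          ((Dvd.intro _ rfl : (2:ℤ) ∣ 2 * w).mul_right _)
      have h6 : (c3 - s * c1) * b1 + (c4 - s * c2) * b2 + (r - s * p) * d1 +
          (2 * w) * (-s * d2) = 1 := by
        rw [hw] at hu1
        linear_combination hu2 - s * hu1
      rw [h6] at h5
      omega
    intro h5
    apply h4
    obtain ⟨h2', hh2⟩ := h2
    obtain ⟨h3', hh3⟩ := h3
    obtain ⟨h5', hh5⟩ := h5
    exact ⟨h5' - z12 * h2' - (c2 + p * z12) * h3', by
      linear_combination hh5 - z12 * hh2 - (c2 + p * z12) * hh3⟩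
  · by_cases hN : (2 : ℤ) ∣ (c4 + r * z12 + s * 0) - (c2 + p * z12 + q * 0) * Y
    · refine ⟨1, fun h => hE ?_⟩
      have := dvd_sub h hN
      have e1 : (c4 + r * z12 + s * 1) - (c2 + p * z12 + q * 1) * Y -
        ((c4 + r * z12 + s * 0) - (c2 + p * z12 + q * 0) * Y) = s - q * Y := by ring
      rwa [e1] at this
    · exact ⟨0, hN⟩

/-- First case: `D` is even. -/
theorem parity1 (C D Z B' D' E : M2) (h : C * B' + D * D' = 1) (hE : D = (2 : ℤ) • E) :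
    ¬ (2 : ℤ) ∣ (C + D * Z).det := by
  intro h2
  have e1 : (C + D * Z) * B' = 1 + (2 : ℤ) • (E * (Z * B' - D')) := by
    have : (C + D * Z) * B' = (C * B' + D * D') + D * (Z * B' - D') := by noncomm_ring
    rw [this, h, hE, Matrix.smul_mul]
  obtain ⟨F, hF⟩ : ∃ F, F = E * (Z * B' - D') := ⟨_, rfl⟩
  rw [← hF] at e1
  have e2 := congrArg Matrix.det e1
  rw [Matrix.det_mul, Matrix.det_fin_two (1 + (2:ℤ) • F)] at e2
  simp only [Matrix.add_apply, Matrix.smul_apply, Matrix.one_apply_eq, smul_eq_mul] at e2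
  rw [Matrix.one_apply_ne (by decide), Matrix.one_apply_ne (by decide)] at e2
  have h3 := h2.mul_right B'.det
  rw [e2] at h3
  obtain ⟨k, hk⟩ := h3
  have : 2 * (k - F 0 0 - F 1 1 - 2 * F 0 0 * F 1 1 + 2 * F 0 1 * F 1 0) = 1 := by
    linear_combination -hk
  omega

theorem det_b4_10 (A C : M2) : (b4 A 1 C 0).det = C.det := by
  rw [Matrix.det_fin_two]
  simp [b4, Matrix.det_succ_row_zero, Fin.sum_univ_succ, Fin.succAbove]
  ring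

theorem det_b4_01 (A C : M2) : (b4 1 A 0 C).det = C.det := by
  rw [Matrix.det_fin_two]
  simp [b4, Matrix.det_succ_row_zero, Fin.sum_univ_succ, Fin.succAbove]
  try ring

/-- Jacobi's identity for the lower left block. -/
theorem jacobi (k : SLn 4) (A B C D A' B' C' D' : M2) (h : k.1 = b4 A B C D)
    (h' : k⁻¹.1 = b4 A' B' C' D') : C.det = C'.det := by
  have h1 : k.1 * k⁻¹.1 = b4 1 0 0 1 := by rw [← SL_val_mul, mul_inv_cancel, b4_one]; rfl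
  rw [h, h', b4_mul] at h1
  obtain ⟨e11, -, e21, -⟩ := b4_inj h1
  have h2 : b4 A B C D * b4 A' 1 C' 0 = b4 1 A 0 C := by
    rw [b4_mul, e11, e21]; simp
  have h3 := congrArg Matrix.det h2
  rw [Matrix.det_mul, ← h, k.2, one_mul, det_b4_10, det_b4_01] at h3
  exact h3.symm

theorem lemY (Y : M2) (h : Y 0 0 = 1) :
    Y = ll (Y 1 0) * !![1, 0; 0, Y.det] * uu (Y 0 1) := by
  rw [Matrix.det_fin_two]
  apply M2_ext
  · simp [Matrix.mul_apply, Fin.sum_univ_two, h]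
  · simp [Matrix.mul_apply, Fin.sum_univ_two]
  · simp [Matrix.mul_apply, Fin.sum_univ_two]
  · simp [Matrix.mul_apply, Fin.sum_univ_two]
    rw [h]; ring

theorem DBgDB (P Q : SLn 2 × SLn 2) (g : SLn 4) (A B C D : M2) (hg : g.1 = b4 A B C D) :
    (DB P * g * DB Q).1 = b4 (P.1.1 * A * Q.1.1) (P.1.1 * B * Q.2.1) (P.2.1 * C * Q.1.1)
      (P.2.1 * D * Q.2.1) := by
  rw [SL_val_mul, SL_val_mul, hg, DB_val, DB_val, b4_mul, b4_mul]
  simp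

theorem M2_ne_zero {D : M2} (hD : D ≠ 0) : ¬ (D 0 0 = 0 ∧ D 0 1 = 0 ∧ D 1 0 = 0 ∧ D 1 1 = 0) := by
  rintro ⟨h1, h2, h3, h4⟩
  exact hD (M2_ext (by simpa using h1) (by simpa using h2) (by simpa using h3) (by simpa using h4))

/-- Every `g ∈ SL₄(ℤ)` whose lower right block is not zero is a six-fold product. -/
theorem six_of_D_ne (g : SLn 4) (A B C D : M2) (hg : g.1 = b4 A B C D) (hD : D ≠ 0) : Six g := by
  obtain ⟨A', B', C', D', hgi⟩ : ∃ A' B' C' D', g⁻¹.1 = b4 A' B' C' D' := exists_b4 _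
  have h1 : g.1 * g⁻¹.1 = b4 1 0 0 1 := by rw [← SL_val_mul, mul_inv_cancel, b4_one]; rfl
  rw [hg, hgi, b4_mul] at h1
  obtain ⟨e11, -, e21, e22⟩ := b4_inj h1
  have hA' : A' ≠ 0 := by
    intro h0
    rw [h0, mul_zero, zero_add] at e11
    rw [h0, mul_zero, zero_add] at e21
    have e12 : C' * B = 1 := mul_eq_one_comm.mp e11
    apply hD
    calc D = D * (C' * B) := by rw [e12, mul_one]
      _ = (D * C') * B := by rw [mul_assoc]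
      _ = 0 := by rw [e21, zero_mul]
  -- first letters
  obtain ⟨v2, hv2, hv2'⟩ := vrow (D 0 0) (D 0 1) (D 1 0) (D 1 1) (M2_ne_zero hD)
  obtain ⟨v, hv, -⟩ := vrow (A' 0 0) (A' 1 0) (A' 0 1) (A' 1 1) (by
    have := M2_ne_zero hA'; tauto)
  obtain ⟨δ, π1, π2, hδ, hp, hq, hπ⟩ := prim _ _ hv2
  obtain ⟨δ', α1, α2, hδ', ha1, ha2, hα⟩ := prim _ _ hv
  -- entries of the modified blocks
  obtain ⟨c1, hc1⟩ : ∃ c1, c1 = C 0 0 + v2 * C 1 0 := ⟨_, rfl⟩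
  obtain ⟨c2, hc2⟩ : ∃ c2, c2 = C 0 1 + v2 * C 1 1 := ⟨_, rfl⟩
  obtain ⟨x, hx⟩ : ∃ x, x = C' 0 0 + v * C' 0 1 := ⟨_, rfl⟩
  obtain ⟨y, hy⟩ : ∃ y, y = C' 1 0 + v * C' 1 1 := ⟨_, rfl⟩
  have H1 : ∃ r s t : ℤ, r * c1 + s * c2 + t * δ = 1 := by
    have k00 := congrFun (congrFun e22 0) 0
    have k01 := congrFun (congrFun e22 0) 1
    have k10 := congrFun (congrFun e22 1) 0
    have k11 := congrFun (congrFun e22 1) 1
    simp [Matrix.mul_apply, Fin.sum_univ_two] at k00 k01 k10 k11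
    refine ⟨B' 0 0, B' 1 0, π1 * D' 0 0 + π2 * D' 1 0, ?_⟩
    rw [hc1, hc2]
    linear_combination k00 + v2 * k10 - D' 0 0 * hp - D' 1 0 * hq
  have H2 : ∃ r s t : ℤ, r * x + s * y + t * δ' = 1 := by
    have k00 := congrFun (congrFun e11 0) 0
    have k01 := congrFun (congrFun e11 0) 1
    have k10 := congrFun (congrFun e11 1) 0
    have k11 := congrFun (congrFun e11 1) 1
    simp [Matrix.mul_apply, Fin.sum_univ_two] at k00 k01 k10 k11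
    refine ⟨B 0 0, B 0 1, α1 * A 0 0 + α2 * A 0 1, ?_⟩
    rw [hx, hy]
    linear_combination k00 + v * k01 - A 0 0 * ha1 - A 0 1 * ha2
  obtain ⟨i, j, hd1, ha0, haodd, hcopa⟩ := side1 c1 c2 δ α1 α2 hδ H1 hα
  obtain ⟨β1, hβ1⟩ : ∃ β1, β1 = α1 - i * α2 := ⟨_, rfl⟩
  obtain ⟨β2, hβ2⟩ : ∃ β2, β2 = α2 - j * (α1 - i * α2) := ⟨_, rfl⟩
  rw [← hβ2] at ha0 haodd hcopa
  rw [← hβ1] at hcopa
  obtain ⟨j', i', k, l, y2, x3, y4, x5, p2, q3, p4, q5, hy2, hx3, hy4, hx5, hp2, hq3, hp4, hq5, hd5,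
    hcopQ, hcopp⟩ := side2 x y δ' π1 π2 (2 * β2) hδ' H2 hπ (by simpa using ha0)
  obtain ⟨m1, hm1⟩ := hd1
  obtain ⟨m2, hm2⟩ := hd5
  -- the words
  obtain ⟨P, hP⟩ : ∃ P : SLn 2 × SLn 2, P = (Le (-v), Ue v2) := ⟨_, rfl⟩
  obtain ⟨Q, hQ⟩ : ∃ Q : SLn 2 × SLn 2, Q = (Ue i * Le j, Le (-j') * Ue (-i') * Le k * Ue (-l)) :=
    ⟨_, rfl⟩
  obtain ⟨Cn, hCn⟩ : ∃ Cn : M2, Cn = P.2.1 * C * Q.1.1 := ⟨_, rfl⟩
  obtain ⟨Dn, hDn⟩ : ∃ Dn : M2, Dn = P.2.1 * D * Q.2.1 := ⟨_, rfl⟩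
  obtain ⟨An', hAn'⟩ : ∃ An' : M2, An' = Q⁻¹.1.1 * A' * P⁻¹.1.1 := ⟨_, rfl⟩
  obtain ⟨Cn', hCn'⟩ : ∃ Cn' : M2, Cn' = Q⁻¹.2.1 * C' * P⁻¹.1.1 := ⟨_, rfl⟩
  have hG := DBgDB P Q g A B C D hg
  have hGi : (DB P * g * DB Q)⁻¹.1 = b4 (Q⁻¹.1.1 * A' * P⁻¹.1.1) (Q⁻¹.1.1 * B' * P⁻¹.2.1)
      (Q⁻¹.2.1 * C' * P⁻¹.1.1) (Q⁻¹.2.1 * D' * P⁻¹.2.1) := by
    have e : (DB P * g * DB Q)⁻¹ = DB Q⁻¹ * g⁻¹ * DB P⁻¹ := by
      rw [_root_.mul_inv_rev, _root_.mul_inv_rev, DB_inv, DB_inv, mul_assoc]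
    rw [e]
    exact DBgDB Q⁻¹ P⁻¹ g⁻¹ A' B' C' D' hgi
  have c00 : Cn 0 0 = c1 + j * (c2 + i * c1) := by
    rw [hCn, hP, hQ, hc1, hc2, Matrix.eta_fin_two C]
    simp [Ue_val, Le_val, Matrix.mul_apply, Fin.sum_univ_two]
    ring
  have d00 : Dn 0 0 = δ * p4 := by
    rw [hDn, hP, hQ, hp4, hq3, hp2]
    rw [Matrix.eta_fin_two D]
    simp [Ue_val, Le_val, Matrix.mul_apply, Fin.sum_univ_two]
    linear_combination (1 + (-i') * k) * hp + (-j' + (1 + j' * i') * k) * hq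
  have d01 : Dn 0 1 = δ * q5 := by
    rw [hDn, hP, hQ, hq5, hp4, hq3, hp2]
    rw [Matrix.eta_fin_two D]
    simp [Ue_val, Le_val, Matrix.mul_apply, Fin.sum_univ_two]
    linear_combination (-i' - l * (1 + (-i') * k)) * hp +
      ((1 + j' * i') - l * (-j' + (1 + j' * i') * k)) * hq
  have a00 : An' 0 0 = δ' * β1 := by
    rw [hAn', hP, hQ, hβ1]
    rw [Matrix.eta_fin_two A']
    simp [Ue_val, Le_val, Ue_inv, Le_inv, Matrix.mul_apply, Fin.sum_univ_two]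
    linear_combination ha1 - i * ha2
  have a10 : An' 1 0 = δ' * β2 := by
    rw [hAn', hP, hQ, hβ2]
    rw [Matrix.eta_fin_two A']
    simp [Ue_val, Le_val, Ue_inv, Le_inv, Matrix.mul_apply, Fin.sum_univ_two]
    linear_combination (-j) * ha1 + (1 + j * i) * ha2
  have x00 : Cn' 0 0 = x5 := by
    rw [hCn', hP, hQ, hx5, hy4, hx3, hy2, hx, hy, Matrix.eta_fin_two C']
    simp [Ue_val, Le_val, Ue_inv, Le_inv, Matrix.mul_apply, Fin.sum_univ_two]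
    ring
  -- the other entries of `Cn`, `Dn`
  obtain ⟨Bn', hBn'⟩ : ∃ Bn' : M2, Bn' = Q⁻¹.1.1 * B' * P⁻¹.2.1 := ⟨_, rfl⟩
  obtain ⟨Dn', hDn'⟩ : ∃ Dn' : M2, Dn' = Q⁻¹.2.1 * D' * P⁻¹.2.1 := ⟨_, rfl⟩
  have n22 : Cn * Bn' + Dn * Dn' = 1 := by
    have k1 : (DB P * g * DB Q).1 * (DB P * g * DB Q)⁻¹.1 = b4 1 0 0 1 := by
      rw [← SL_val_mul, mul_inv_cancel, b4_one]; rfl
    rw [hG, hGi, b4_mul] at k1
    obtain ⟨-, -, -, k2⟩ := b4_inj k1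
    rw [hCn, hBn', hDn, hDn']
    exact k2
  have n00 := congrFun (congrFun n22 0) 0
  have n01 := congrFun (congrFun n22 0) 1
  have n11 := congrFun (congrFun n22 1) 1
  simp [Matrix.mul_apply, Fin.sum_univ_two] at n00 n01 n11
  -- the two linear equations
  obtain ⟨z11, z21, z12, hz1, hz2, hz3⟩ := crt p4 q5 β1 β2 m1 m2
    (1 + Dn 1 1 * Cn 0 0 + Dn 0 1 * Cn 1 0) hcopp hcopa hcopQ
  have hY1 : Cn 0 0 + Dn 0 0 * z11 + Dn 0 1 * z21 = 1 := by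
    rw [c00, d00, d01]
    linear_combination δ * hz1 - hm1
  have hY1' : -Cn' 0 0 + An' 0 0 * z11 + An' 1 0 * z12 = 1 := by
    rw [x00, a00, a10]
    linear_combination δ' * hz2 - hm2
  obtain ⟨z22, hodd⟩ : ∃ z22 : ℤ, ¬ (2 : ℤ) ∣ (Cn + Dn * !![z11, z12; z21, z22]).det := by
    by_cases hD2 : (2 : ℤ) ∣ D 0 0 ∧ (2 : ℤ) ∣ D 0 1 ∧ (2 : ℤ) ∣ D 1 0 ∧ (2 : ℤ) ∣ D 1 1
    · refine ⟨0, ?_⟩
      obtain ⟨⟨t1, ht1⟩, ⟨t2, ht2⟩, ⟨t3, ht3⟩, ⟨t4, ht4⟩⟩ := hD2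
      refine parity1 Cn Dn _ Bn' Dn' (P.2.1 * !![t1, t2; t3, t4] * Q.2.1) n22 ?_
      have : D = (2 : ℤ) • !![t1, t2; t3, t4] := by
        apply M2_ext
        · simpa using ht1
        · simpa using ht2
        · simpa using ht3
        · simpa using ht4
      rw [hDn, this, Matrix.mul_smul, Matrix.smul_mul]
    · have hδ2 : ¬ (2 : ℤ) ∣ δ := by
        intro h
        apply hv2' hD2
        rw [hp, hq]
        exact ⟨h.mul_right _, h.mul_right _⟩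
      have hq5odd : ¬ (2 : ℤ) ∣ Dn 0 1 := by
        rw [d01]
        intro h
        rcases (Int.prime_two.dvd_mul).mp h with h' | h'
        · exact hδ2 h'
        · obtain ⟨r, s, hrs⟩ := hcopQ
          have : (2 : ℤ) ∣ 1 := by
            rw [← hrs]
            exact dvd_add (h'.mul_left _) ((Dvd.intro _ rfl : (2:ℤ) ∣ 2 * β2).mul_left _)
          omega
      obtain ⟨z22, hz⟩ := parity2 (Cn 0 0) (Cn 0 1) (Cn 1 0) (Cn 1 1) (Dn 0 0) (Dn 0 1) (Dn 1 0)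
        (Dn 1 1) z11 z21 z12 (Bn' 0 1) (Bn' 1 1) (Dn' 0 1) (Dn' 1 1) hq5odd hY1
        (by linear_combination n01) (by linear_combination n11) (hz3 (haodd hδ2))
      refine ⟨z22, ?_⟩
      have e : (Cn + Dn * !![z11, z12; z21, z22]).det =
          (Cn 1 1 + Dn 1 0 * z12 + Dn 1 1 * z22) -
          (Cn 0 1 + Dn 0 0 * z12 + Dn 0 1 * z22) * (Cn 1 0 + Dn 1 0 * z11 + Dn 1 1 * z21) := by
        rw [Matrix.det_fin_two]
        simp [Matrix.mul_apply, Fin.sum_univ_two]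
        linear_combination (Cn 1 1 + Dn 1 0 * z12 + Dn 1 1 * z22) * hY1
      rw [e]
      exact hz
  obtain ⟨Z, hZ⟩ : ∃ Z : M2, Z = !![z11, z12; z21, z22] := ⟨_, rfl⟩
  rw [← hZ] at hodd
  have hYY : (Cn + Dn * Z) 0 0 = 1 := by
    rw [hZ]
    simp [Matrix.mul_apply, Fin.sum_univ_two]
    linear_combination hY1
  have hYY' : (Z * An' - Cn') 0 0 = 1 := by
    rw [hZ, Matrix.sub_apply, Matrix.mul_apply, Fin.sum_univ_two]
    change z11 * An' 0 0 + z12 * An' 1 0 - Cn' 0 0 = 1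
    linear_combination hY1'
  have hdet : (Cn + Dn * Z).det = (Z * An' - Cn').det := by
    have k1 : (DB P * g * DB Q * CB Z).1 = b4 (P.1.1 * A * Q.1.1 + P.1.1 * B * Q.2.1 * Z)
        (P.1.1 * B * Q.2.1) (Cn + Dn * Z) Dn := by
      rw [SL_val_mul, hG, CB_val, b4_mul, hCn, hDn]
      congr 1 <;> simp
    have k2 : (DB P * g * DB Q * CB Z)⁻¹.1 = b4 An' Bn' (Cn' - Z * An') (Dn' - Z * Bn') := by
      rw [_root_.mul_inv_rev (DB P * g * DB Q) (CB Z), CB_inv, SL_val_mul, hGi, CB_val, b4_mul,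
        hAn', hBn', hCn', hDn']
      congr 1
      · simp
      · simp
      · rw [neg_mul, one_mul]; abel
      · rw [neg_mul, one_mul]; abel
    have k3 := jacobi _ _ _ _ _ _ _ _ _ k1 k2
    rw [k3, ← neg_sub, Matrix.det_neg]
    simp
  have hw : SixIn ((Up 2).prod (Up 2)) ((Lo 2).prod (Lo 2))
      (P⁻¹ * (Ue ((Cn + Dn * Z) 0 1 - (Z * An' - Cn') 0 1),
        Le ((Cn + Dn * Z) 1 0 - (Z * An' - Cn') 1 0)) * Q⁻¹) := by
    obtain ⟨t, ht⟩ : ∃ t, t = (Cn + Dn * Z) 0 1 - (Z * An' - Cn') 0 1 := ⟨_, rfl⟩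
    obtain ⟨t', ht'⟩ : ∃ t', t' = (Cn + Dn * Z) 1 0 - (Z * An' - Cn') 1 0 := ⟨_, rfl⟩
    rw [← ht, ← ht', hP, hQ]
    refine ⟨(1, Ue (-v2)), ⟨(Up 2).one_mem, Ue_mem _⟩, (Le v, Le t'), ⟨Le_mem _, Le_mem _⟩,
      (Ue t, Ue l), ⟨Ue_mem _, Ue_mem _⟩, (Le (-j), Le (-k)), ⟨Le_mem _, Le_mem _⟩,
      (Ue (-i), Ue i'), ⟨Ue_mem _, Ue_mem _⟩, (1, Le j'), ⟨(Lo 2).one_mem, Le_mem _⟩, ?_⟩
    simp only [Prod.mk_mul_mk, Prod.inv_mk, _root_.mul_inv_rev, Ue_inv, Le_inv, neg_neg]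
    congr 1 <;> group
  exact four_six g P Q _ _ _ _ _ _ _ _ Z _ _ _ _ (Cn + Dn * Z).det
    (fun h => hodd (Dvd.dvd.trans ⟨2, by norm_num⟩ h)) hG hGi
    (by
      have := lemY (Cn + Dn * Z) hYY
      rw [hCn, hDn] at this
      rw [hCn, hDn]
      exact this)
    (by
      have := lemY (Z * An' - Cn') hYY'
      rw [← hdet] at this
      rw [hAn', hCn'] at this
      rw [hAn', hCn']
      exact this)
    hw

end Pool.Agent.Lib.MP_efa98f_al.F4
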