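import Pool.Agent.Lib.MP_efa98f_al.TwoNT

namespace Pool.Agent.Lib.MP_efa98f_al.F4

/-- A prime in a class modulo `N` and `= 3 mod 4`, for `4 ∤ N`. -/
theorem prime_three_mod_four (N : ℤ) (hN : ¬ (4 : ℤ) ∣ N) (r : ℤ) (hr : IsCoprime r N) (M : ℕ) :
    ∃ q : ℕ, q.Prime ∧ M < q ∧ q % 4 = 3 ∧ N ∣ (q : ℤ) - r := by
  have hN0 : N ≠ 0 := by rintro rfl; exact hN (dvd_zero _)
  -- a class modulo 4 N
  obtain ⟨s, hs4, hsN, hcop⟩ : ∃ s : ℤ, s % 4 = 3 ∧ N ∣ s - r ∧ IsCoprime s (4 * N) := by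
    have key : ∃ s : ℤ, s % 4 = 3 ∧ N ∣ s - r := by
      have h4 : N % 4 = 1 ∨ N % 4 = 2 ∨ N % 4 = 3 := by omega
      have hr' : N % 4 = 2 → r % 2 = 1 := by
        intro h
        obtain ⟨x, y, hxy⟩ := hr
        by_contra hc
        have h1 : r % 2 = 0 := by omega
        obtain ⟨r1, hr1⟩ : ∃ r1, r = 2 * r1 := ⟨r / 2, by omega⟩
        obtain ⟨N1, hN1⟩ : ∃ N1, N = 2 * N1 := ⟨N / 2, by omega⟩
        have : 2 * (x * r1 + y * N1) = 1 := by rw [hr1, hN1] at hxy; linear_combination hxy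
        omega
      rcases h4 with h | h | h
      · -- N = 4 k + 1
        obtain ⟨k, hk⟩ : ∃ k, N = 4 * k + 1 := ⟨N / 4, by omega⟩
        refine ⟨r + N * (3 - r), ?_, ⟨3 - r, by ring⟩⟩
        rw [hk, show r + (4 * k + 1) * (3 - r) = 4 * (k * (3 - r)) + 3 by ring]; omega
      · obtain ⟨k, hk⟩ : ∃ k, N = 4 * k + 2 := ⟨N / 4, by omega⟩
        obtain ⟨r1, hr1⟩ : ∃ r1, r = 2 * r1 + 1 := ⟨r / 2, by have := hr' h; omega⟩
        refine ⟨r + N * (1 + r1), ?_, ⟨1 + r1, by ring⟩⟩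
        rw [hk, hr1, show 2 * r1 + 1 + (4 * k + 2) * (1 + r1) = 4 * (k * (1 + r1) + r1) + 3 by ring]
        omega
      · obtain ⟨k, hk⟩ : ∃ k, N = 4 * k + 3 := ⟨N / 4, by omega⟩
        refine ⟨r + N * (r + 1), ?_, ⟨r + 1, by ring⟩⟩
        rw [hk, show r + (4 * k + 3) * (r + 1) = 4 * (k * (r + 1) + r) + 3 by ring]; omega
    obtain ⟨s, hs4, hsN⟩ := key
    refine ⟨s, hs4, hsN, ?_⟩
    refine IsCoprime.mul_right ⟨-1, s / 4 + 1, by omega⟩ ?_
    obtain ⟨t, ht⟩ := hsN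
    have : s = r + N * t := by linear_combination ht
    rw [this]
    exact IsCoprime.add_mul_left_left hr _
  have hcast : ((4 * N.natAbs : ℕ) : ℤ) = 4 * |N| := by push_cast; ring
  have hcop' : IsCoprime s ((4 * N.natAbs : ℕ) : ℤ) := by
    rw [hcast]
    rcases abs_choice N with h | h
    · rw [h]; exact hcop
    · rw [h, mul_neg]; exact hcop.neg_right
  obtain ⟨q, hq1, hq2, hq3⟩ := Nat.forall_exists_prime_gt_and_zmodEq M (q := 4 * N.natAbs)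
    (a := s) (by simpa using hN0) hcop'
  refine ⟨q, hq2, hq1, ?_, ?_⟩
  · have h1 : (q : ℤ) ≡ s [ZMOD 4] := hq3.of_dvd (by rw [hcast]; exact Dvd.intro _ rfl)
    have h2 : (q : ℤ) % 4 = s % 4 := h1
    omega
  · have h1 : (q : ℤ) ≡ s [ZMOD N] := hq3.of_dvd (by
      rw [hcast]; exact Dvd.dvd.mul_left (by rw [dvd_abs]) _)
    have h2 : N ∣ (q : ℤ) - s := h1.symm.dvd
    have := dvd_add h2 hsN
    rwa [sub_add_sub_cancel] at this

/-- The number theory of the one-cell lemma: a matrix `[a0, b0; N c0, d0]` in `SL_2(Z)` with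
prescribed `d0` modulo `N`, `b0 = ± 1`, and an exponent `n` with `lam ^ n = 1 mod N`,
`a0 ^ (n - 1) = 1 mod c0`. -/
theorem one_cell_choice (N : ℤ) (hN : ¬ (4 : ℤ) ∣ N) (lam : ℤ) (hlam : IsCoprime lam N) :
    ∃ (a0 b0 c0 d0 : ℤ) (n : ℕ), a0 * d0 - b0 * (N * c0) = 1 ∧ N ∣ d0 - lam ∧
      (b0 = 1 ∨ b0 = -1) ∧ N ∣ lam ^ (n + 1) - 1 ∧ c0 ∣ a0 ^ n - 1 ∧ N ∣ d0 ^ (n + 1) - 1 ∧
      N ∣ a0 ^ (n + 1) - 1 ∧ c0 ≠ 0 := by
  have hN0 : N ≠ 0 := by rintro rfl; exact hN (dvd_zero _)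
  obtain ⟨li, y, hli⟩ := hlam
  -- li * lam + y * N = 1
  have hli' : IsCoprime li N := ⟨lam, y, by linear_combination hli⟩
  obtain ⟨q, hqp, hqM, hq4, hqN⟩ := prime_three_mod_four N hN li hli' (Nat.totient N.natAbs)
  have htot : 0 < Nat.totient N.natAbs := Nat.totient_pos.mpr (Int.natAbs_pos.mpr hN0)
  -- odd part of the totient
  obtain ⟨e, m, hm2, hφ⟩ : ∃ e m : ℕ, Odd m ∧ Nat.totient N.natAbs = 2 ^ e * m := by
    obtain ⟨e, m, hm, h⟩ := Nat.exists_eq_two_pow_mul_odd (n := Nat.totient N.natAbs) (by omega)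
    exact ⟨e, m, hm, h⟩
  have hm0 : m ≠ 0 := by rintro rfl; exact absurd hm2 (by decide)
  have hmle : m ≤ Nat.totient N.natAbs := by
    rw [hφ]; exact Nat.le_mul_of_pos_left _ (by positivity)
  have hmq : Nat.Coprime q m := by
    rw [Nat.Prime.coprime_iff_not_dvd hqp]
    intro h
    have := Nat.le_of_dvd (Nat.pos_of_ne_zero hm0) h
    omega
  have h4q : IsCoprime ((4 * q : ℕ) : ℤ) (m : ℤ) := by
    rw [Nat.isCoprime_iff_coprime]
    refine Nat.Coprime.mul_left ?_ hmq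
    exact (Nat.Coprime.pow_left 2 (Nat.coprime_two_left.mpr hm2) : Nat.Coprime (2 ^ 2) m)
  -- the class of the prime
  have hNq : IsCoprime N (q : ℤ) := by
    obtain ⟨t, ht⟩ := hqN
    have h1 : (q : ℤ) = li + N * t := by linear_combination ht
    rw [h1]
    exact (IsCoprime.add_mul_left_left hli' _).symm
  obtain ⟨u, v, huv⟩ := hNq
  -- u N + v q = 1
  have huq : IsCoprime (-u) (q : ℤ) := ⟨-N, v, by linear_combination huv⟩
  obtain ⟨ε, ξ, P, hε, hPp, hPM, hP4, hPm, hPeq, hPpow⟩ :=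
    first_prime (-u) q 3 m (-1) hq4 huq h4q hm0 ⟨-1, 0, by ring⟩
  have hεε : ε * ε = 1 := by rcases hε with h | h <;> rw [h] <;> norm_num
  -- exponent
  have hhodd : (P / 2) % 2 = 1 := by omega
  have hcopn : Nat.Coprime (Nat.totient N.natAbs) (P / 2) := by
    rw [hφ]
    refine Nat.Coprime.mul_left (Nat.Coprime.pow_left e
      (Nat.coprime_two_left.mpr (Nat.odd_iff.mpr hhodd))) ?_
    rw [← Nat.isCoprime_iff_coprime]
    obtain ⟨w, hw⟩ := hPm.symm.dvd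
    obtain ⟨k, hk⟩ := hm2
    have hP2 : (P : ℤ) = 2 * ((P / 2 : ℕ) : ℤ) + 1 := by omega
    have hmk : (m : ℤ) = 2 * k + 1 := by exact_mod_cast hk
    have hw2 : (2 * (k : ℤ) + 1) * w = 2 * (((P / 2 : ℕ) : ℤ) + 1) := by
      rw [← hmk]; linear_combination -hw + hP2
    have : w % 2 = 0 := by
      have : w = 2 * (((P / 2 : ℕ) : ℤ) + 1 - k * w) := by linear_combination hw2
      omega
    obtain ⟨w', hw'⟩ : ∃ w', w = 2 * w' := ⟨w / 2, by omega⟩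
    refine ⟨w', -1, ?_⟩
    have : 2 * ((m : ℤ) * w') = 2 * (((P / 2 : ℕ) : ℤ) + 1) := by
      rw [hmk, ← hw2, hw']; ring
    have h3 : (m : ℤ) * w' = ((P / 2 : ℕ) : ℤ) + 1 := by omega
    linear_combination h3
  obtain ⟨n, hn1, hn2⟩ : ∃ n : ℕ, (Nat.totient N.natAbs) ∣ n + 1 ∧ P / 2 ∣ n := by
    obtain ⟨k, hk1, hk2⟩ := Nat.chineseRemainder hcopn (Nat.totient N.natAbs - 1) 0
    refine ⟨k, ?_, (Nat.modEq_zero_iff_dvd).mp hk2⟩
    have := hk1.add_right 1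
    rw [Nat.sub_add_cancel htot] at this
    exact (Nat.modEq_zero_iff_dvd).mp (this.trans (by simp [Nat.ModEq]))
  have hpow : ∀ x : ℤ, IsCoprime x N → N ∣ x ^ (n + 1) - 1 := by
    intro x hx
    obtain ⟨k, hk⟩ := hn1
    have hx' : IsCoprime ((N.natAbs : ℕ) : ℤ) x := by
      rw [Int.natCast_natAbs]
      rcases abs_choice N with h | h
      · rw [h]; exact hx.symm
      · rw [h]; exact hx.symm.neg_left
    have hu : IsUnit (x : ZMod N.natAbs) := (ZMod.coe_int_isUnit_iff_isCoprime x N.natAbs).mpr hx'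
    obtain ⟨w, hw⟩ := hu
    have h1 : (x : ZMod N.natAbs) ^ (n + 1) = 1 := by
      rw [hk, pow_mul, ← hw, ← Units.val_pow_eq_pow_val, ZMod.pow_totient]; simp
    have h2 : ((x ^ (n + 1) - 1 : ℤ) : ZMod N.natAbs) = 0 := by push_cast; rw [h1]; simp
    rw [ZMod.intCast_zmod_eq_zero_iff_dvd] at h2
    rwa [Int.natCast_natAbs, abs_dvd] at h2
  obtain ⟨t, ht⟩ := hqN
  have hdl : N ∣ (v + N * ξ) - lam :=
    ⟨v * y - lam * u - lam * v * t + ξ, by
      linear_combination (-v) * hli + lam * huv - lam * v * ht⟩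
  have hqN' : IsCoprime (q : ℤ) N := ⟨v, u, by linear_combination huv⟩
  have hdN : IsCoprime (v + N * ξ) N := by
    refine ⟨(q : ℤ), -(ε * P), ?_⟩
    rw [← hPeq]; linear_combination huv
  refine ⟨q, ε, P, v + N * ξ, n, ?_, hdl, hε, hpow lam ⟨li, y, hli⟩, ?_, hpow _ hdN, hpow _ hqN',
    by exact_mod_cast hPp.ne_zero⟩
  · have := hPeq
    linear_combination huv + N * hPeq
  · obtain ⟨k, hk⟩ := hn2
    rw [hk, pow_mul]
    exact hPpow.trans (by simpa using sub_dvd_pow_sub_pow ((q : ℤ) ^ (P / 2)) 1 k)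

end Pool.Agent.Lib.MP_efa98f_al.F4
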