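import Pool.Agent.Lib.MP_efa98f_al.W11.CellDiag
import Pool.Agent.Lib.MP_efa98f_al.W11.FourNT

namespace Pool.Agent.Lib.MP_efa98f_al.F4

open Matrix

/-- The one-cell lemma for `y = diag(1,N)`. -/
theorem cell_one (A B C D A' B' C' D' k : M2) (N : ℤ) (hN4 : ¬ (4 : ℤ) ∣ N)
    (h1 : A * A' + B * C' = 1) (h2 : C * A' + D * C' = 0) (h3 : C * B' + D * D' = 1)
    (hy : C + D * k = !![1, 0; 0, N]) (hy' : k * A' - C' = !![1, 0; 0, N]) :
    RC6 (b4 A B C D) := by
  have hN : N ≠ 0 := by rintro rfl; exact hN4 (dvd_zero _)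
  have hyA : (!![1, 0; 0, N] : M2) * A' = D * !![1, 0; 0, N] := by
    have e : (!![1, 0; 0, N] : M2) * A' - D * !![1, 0; 0, N] = C * A' + D * C' := by
      have e1 : (!![1, 0; 0, N] : M2) * A' = (C + D * k) * A' := by rw [hy]
      have e2 : D * (!![1, 0; 0, N] : M2) = D * (k * A' - C') := by rw [hy']
      rw [e1, e2]; noncomm_ring
    rw [h2] at e
    exact sub_eq_zero.mp e
  have q10 : N * A' 1 0 = D 1 0 := by
    have := congrFun (congrFun hyA 1) 0
    simpa [Matrix.mul_apply, Fin.sum_univ_two] using this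
  have hcop : IsCoprime (D 1 1) N := by
    have e : (!![1, 0; 0, N] : M2) * B' + D * (D' - k * B') = 1 := by
      rw [← hy, ← h3]; noncomm_ring
    have e2 := congrFun (congrFun e 1) 1
    obtain ⟨E, hE⟩ : ∃ E : M2, E = D' - k * B' := ⟨_, rfl⟩
    rw [← hE] at e2
    rw [Matrix.add_apply, Matrix.mul_apply, Matrix.mul_apply, Fin.sum_univ_two,
      Fin.sum_univ_two] at e2
    simp at e2
    refine ⟨E 1 1, B' 1 1 + A' 1 0 * E 0 1, ?_⟩
    linear_combination e2 + E 0 1 * q10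
  obtain ⟨p, b0, c0, s, n, hdet, hs, hb0, -, hpn, hsN, hpN, hc0⟩ :=
    one_cell_choice N hN4 (D 1 1) hcop
  obtain ⟨F, G, hFG, hseq⟩ := seq_gen (p + s) n
  have hbb : b0 * b0 = 1 := by rcases hb0 with h | h <;> rw [h] <;> norm_num
  refine cell_diag A B C D A' C' k N s p (-(b0 * c0)) (F + G * (p + s)) (-G) hN ?_ h1 h2 hy hy'
    (by linear_combination hdet) (by linear_combination hFG) ?_ ?_
  · intro h
    have : b0 * c0 = 0 := by linarith
    rcases mul_eq_zero.mp this with h' | h'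
    · rw [h'] at hbb; norm_num at hbb
    · exact hc0 h'
  · -- `F + G p ≡ p ^ n ≡ s` modulo `N`
    have e1 : N ∣ F + G * p - p ^ n := hseq N p ⟨-(b0 * c0), by linear_combination -hdet⟩
    have e2 : N ∣ s * (p ^ (n + 1) - 1) := hpN.mul_left s
    have e3 : F + G * (p + s) + -G * s - D 1 1 =
        (F + G * p - p ^ n) + (s - D 1 1) + (s * (p ^ (n+1) - 1)) +
          N * (-(b0 * c0 * p ^ n)) := by
      rw [pow_succ]; linear_combination (-(p^n)) * hdet
    rw [e3]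
    exact dvd_add (dvd_add (dvd_add e1 hs) e2) (Dvd.intro _ rfl)
  · -- `F + G s ≡ s ^ n ≡ 1` modulo `c0`
    have e1 : c0 ∣ F + G * s - s ^ n := hseq c0 s ⟨-(b0 * N), by linear_combination -hdet⟩
    have e2 : c0 ∣ s ^ n * (p ^ n - 1) := hpn.mul_left _
    have e4 : c0 ∣ (p * s) ^ n - 1 := by
      have := sub_dvd_pow_sub_pow (p * s) 1 n
      rw [one_pow] at this
      exact Dvd.dvd.trans ⟨b0 * N, by linear_combination hdet⟩ this
    have e3 : F + G * (p + s) + -G * p - 1 = (F + G * s - s ^ n) - s ^ n * (p ^ n - 1) +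
        ((p * s) ^ n - 1) := by
      rw [mul_pow]; ring
    have e5 : c0 ∣ F + G * (p + s) + -G * p - 1 := by
      rw [e3]; exact dvd_add (dvd_sub e1 e2) e4
    rcases hb0 with h | h
    · rw [h, one_mul]; exact (neg_dvd).mpr e5
    · rw [h, neg_one_mul, neg_neg]; exact e5

/-- The one-cell lemma. -/
theorem cell (A B C D A' B' C' D' k P Pi Q Qi : M2) (N : ℤ) (hN4 : ¬ (4 : ℤ) ∣ N)
    (hP : P * Pi = 1) (hP' : Pi * P = 1) (hQ : Q * Qi = 1) (hQ' : Qi * Q = 1)
    (h1 : A * A' + B * C' = 1) (h2 : C * A' + D * C' = 0) (h3 : C * B' + D * D' = 1)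
    (hy : C + D * k = P * !![1, 0; 0, N] * Q) (hy' : k * A' - C' = P * !![1, 0; 0, N] * Q) :
    RC6 (b4 A B C D) := by
  refine RC6_conj hP hP' hQ hQ' (cell_one _ _ _ _ (Q * A' * Qi) (Q * B' * P) (Pi * C' * Qi)
    (Pi * D' * P) (Pi * k * Qi) N hN4 ?_ ?_ ?_ ?_ ?_)
  · have : Q * A * Qi * (Q * A' * Qi) + Q * B * P * (Pi * C' * Qi) =
        Q * (A * (Qi * Q) * A' + B * (P * Pi) * C') * Qi := by noncomm_ring
    rw [this, hQ', hP, mul_one, mul_one, h1, mul_one, hQ]
  · have : Pi * C * Qi * (Q * A' * Qi) + Pi * D * P * (Pi * C' * Qi) =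
        Pi * (C * (Qi * Q) * A' + D * (P * Pi) * C') * Qi := by noncomm_ring
    rw [this, hQ', hP, mul_one, mul_one, h2]; noncomm_ring
  · have : Pi * C * Qi * (Q * B' * P) + Pi * D * P * (Pi * D' * P) =
        Pi * (C * (Qi * Q) * B' + D * (P * Pi) * D') * P := by noncomm_ring
    rw [this, hQ', hP, mul_one, mul_one, h3, mul_one, hP']
  · have : Pi * C * Qi + Pi * D * P * (Pi * k * Qi) = Pi * (C + D * (P * Pi) * k) * Qi := by
      noncomm_ring
    rw [this, hP, mul_one, hy]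
    have : Pi * (P * !![1, 0; 0, N] * Q) * Qi = (Pi * P) * !![1, 0; 0, N] * (Q * Qi) := by
      noncomm_ring
    rw [this, hP', hQ, one_mul, mul_one]
  · have : Pi * k * Qi * (Q * A' * Qi) - Pi * C' * Qi = Pi * (k * (Qi * Q) * A' - C') * Qi := by
      noncomm_ring
    rw [this, hQ', mul_one, hy']
    have : Pi * (P * !![1, 0; 0, N] * Q) * Qi = (Pi * P) * !![1, 0; 0, N] * (Q * Qi) := by
      noncomm_ring
    rw [this, hP', hQ, one_mul, mul_one]

end Pool.Agent.Lib.MP_efa98f_al.F4
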