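import Pool.Agent.Lib.MP_efa98f_al.TwoNT

namespace Pool.Agent.Lib.MP_efa98f_al.F4

open Matrix

/-- The block computation behind the cell lemma, in an arbitrary ring of blocks. -/
theorem cell_claims {S : Type*} [Ring S] (A B C D A' C' k x a b y V Vi X Xi : S)
    (h1 : A * A' + B * C' = 1) (h2 : C * A' + D * C' = 0)
    (hy : C + D * k = y) (hy' : k * A' - C' = y)
    (hV : V = D - y * x) (hX : X = A' - x * y)
    (hb : V = 1 + b * a) (ha : X = 1 + a * b)
    (hVi' : Vi * V = 1) (hVi : V * Vi = 1) (hXi : X * Xi = 1) :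
    (1 + ((B - (A + B * k) * x) - a) * Vi * b) * a + ((B - (A + B * k) * x) - a) * Vi =
      B - (A + B * k) * x ∧
    b + V * (Vi * y - b * Xi) = y ∧
    1 + ((B - (A + B * k) * x) - a) * Vi * b + (B - (A + B * k) * x) * (Vi * y - b * Xi) =
      A + B * k := by
  have hVb : V * b = b * X := by rw [hb, ha]; noncomm_ring
  have hVib : Vi * b = b * Xi := by
    calc Vi * b = Vi * (b * (X * Xi)) := by rw [hXi, mul_one]
      _ = Vi * (b * X) * Xi := by noncomm_ring
      _ = Vi * (V * b) * Xi := by rw [hVb]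
      _ = (Vi * V) * b * Xi := by noncomm_ring
      _ = b * Xi := by rw [hVi', one_mul]
  have hyA : y * A' = D * y := by
    have e : y * A' - D * y = C * A' + D * C' := by
      have e1 : y * A' = (C + D * k) * A' := by rw [hy]
      have e2 : D * y = D * (k * A' - C') := by rw [hy']
      rw [e1, e2]; noncomm_ring
    rw [h2] at e
    exact sub_eq_zero.mp e
  have hyX : y * X = V * y := by
    rw [hX, hV, mul_sub, sub_mul, hyA]; noncomm_ring
  obtain ⟨W, hW⟩ : ∃ W, W = B - (A + B * k) * x := ⟨_, rfl⟩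
  rw [← hW]
  refine ⟨?_, ?_, ?_⟩
  · have e : (1 + (W - a) * Vi * b) * a + (W - a) * Vi = a + (W - a) * (Vi * (1 + b * a)) := by
      noncomm_ring
    rw [e, ← hb, hVi']; noncomm_ring
  · have e : b + V * (Vi * y - b * Xi) = b + (V * Vi) * y - (V * b) * Xi := by noncomm_ring
    rw [e, hVi, hVb]
    have e2 : b * X * Xi = b * (X * Xi) := by noncomm_ring
    rw [e2, hXi]; noncomm_ring
  · have e : 1 + (W - a) * Vi * b + W * (Vi * y - b * Xi) =
        1 - a * (Vi * b) + W * Vi * y + W * (Vi * b - b * Xi) := by noncomm_ring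
    rw [e, hVib, sub_self, mul_zero, add_zero]
    have e3 : (A + B * k - W * Vi * y) * X = 1 := by
      have e4 : (A + B * k - W * Vi * y) * X = (A + B * k) * X - W * (Vi * (y * X)) := by
        noncomm_ring
      have e5 : Vi * (V * y) = y := by rw [← mul_assoc, hVi', one_mul]
      rw [e4, hyX, e5, hX, hW]
      have e6 : (A + B * k) * (A' - x * y) - (B - (A + B * k) * x) * y =
          A * A' + B * (k * A' - y) := by noncomm_ring
      rw [e6]
      have e7 : k * A' - y = C' := by rw [← hy']; abel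
      rw [e7, h1]
    have e8 : A + B * k - W * Vi * y = Xi := by
      calc A + B * k - W * Vi * y = (A + B * k - W * Vi * y) * (X * Xi) := by rw [hXi, mul_one]
        _ = ((A + B * k - W * Vi * y) * X) * Xi := by rw [← mul_assoc]
        _ = Xi := by rw [e3, one_mul]
    have e9 : a * (b * Xi) = 1 - Xi := by
      have : (1 + a * b) * Xi = 1 := by rw [← ha, hXi]
      have e10 : a * (b * Xi) = (1 + a * b) * Xi - Xi := by noncomm_ring
      rw [e10, this]
    rw [e9]
    have e11 : A + B * k = Xi + W * Vi * y := by rw [← e8]; abel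
    rw [e11]; abel

/-- Six block letters. -/
def RC6 (M : Matrix (Fin 4) (Fin 4) ℤ) : Prop :=
  ∃ X1 X2 X3 X4 X5 X6 : M2, M =
    b4 1 X1 0 1 * b4 1 0 X2 1 * b4 1 X3 0 1 * b4 1 0 X4 1 * b4 1 X5 0 1 * b4 1 0 X6 1

theorem cell_core (A B C D A' C' k x a b y V Vi X Xi : M2)
    (h1 : A * A' + B * C' = 1) (h2 : C * A' + D * C' = 0)
    (hy : C + D * k = y) (hy' : k * A' - C' = y)
    (hV : V = D - y * x) (hX : X = A' - x * y)
    (hb : V = 1 + b * a) (ha : X = 1 + a * b)
    (hVi' : Vi * V = 1) (hVi : V * Vi = 1) (hXi : X * Xi = 1) :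
    RC6 (b4 A B C D) := by
  obtain ⟨c1, c2, c3⟩ := cell_claims A B C D A' C' k x a b y V Vi X Xi h1 h2 hy hy' hV hX hb ha
    hVi' hVi hXi
  obtain ⟨W, hW⟩ : ∃ W, W = B - (A + B * k) * x := ⟨_, rfl⟩
  rw [← hW] at c1 c3
  refine ⟨(W - a) * Vi, b, a, Vi * y - b * Xi, x, -k, ?_⟩
  have s1 : b4 1 ((W - a) * Vi) 0 1 * b4 1 0 b 1 * b4 1 a 0 1 =
      b4 (1 + (W - a) * Vi * b) W b V := by
    rw [b4_mul, b4_mul]
    congr 1
    · noncomm_ring
    · refine Eq.trans ?_ c1; noncomm_ring
    · noncomm_ring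
    · rw [hb]; noncomm_ring
  have s2 : b4 (1 + (W - a) * Vi * b) W b V * b4 1 0 (Vi * y - b * Xi) 1 =
      b4 (A + B * k) W y V := by
    rw [b4_mul]
    congr 1
    · refine Eq.trans ?_ c3; noncomm_ring
    · noncomm_ring
    · refine Eq.trans ?_ c2; noncomm_ring
    · noncomm_ring
  have s3 : b4 (A + B * k) W y V * b4 1 x 0 1 = b4 (A + B * k) B y D := by
    rw [b4_mul]
    congr 1
    · noncomm_ring
    · rw [hW]; noncomm_ring
    · noncomm_ring
    · rw [hV]; noncomm_ring
  have s4 : b4 (A + B * k) B y D * b4 1 0 (-k) 1 = b4 A B C D := by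
    rw [b4_mul]
    congr 1
    · noncomm_ring
    · noncomm_ring
    · rw [← hy]; noncomm_ring
    · noncomm_ring
  rw [s1, s2, s3, s4]

end Pool.Agent.Lib.MP_efa98f_al.F4
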