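import Pool.Agent.Lib.MP_efa98f_al.W11.CellCore

namespace Pool.Agent.Lib.MP_efa98f_al.F4

open Matrix

/-- The cell lemma for `y = diag(1,N)`, with the arithmetic data given. -/
theorem cell_diag (A B C D A' C' k : M2) (N s p M f g : ℤ) (hN : N ≠ 0) (hM : M ≠ 0)
    (h1 : A * A' + B * C' = 1) (h2 : C * A' + D * C' = 0)
    (hy : C + D * k = !![1, 0; 0, N]) (hy' : k * A' - C' = !![1, 0; 0, N])
    (hps : p * s + N * M = 1) (hfg : f^2 + (p + s) * f * g + g^2 = 1)
    (hsN : N ∣ f + g * s - D 1 1) (hpM : M ∣ f + g * p - 1) : RC6 (b4 A B C D) := by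
  obtain ⟨v, hv⟩ := hsN
  obtain ⟨w, hw⟩ := hpM
  have hyA : (!![1, 0; 0, N] : M2) * A' = D * !![1, 0; 0, N] := by
    have e : (!![1, 0; 0, N] : M2) * A' - D * !![1, 0; 0, N] = C * A' + D * C' := by
      have e1 : (!![1, 0; 0, N] : M2) * A' = (C + D * k) * A' := by rw [hy]
      have e2 : D * (!![1, 0; 0, N] : M2) = D * (k * A' - C') := by rw [hy']
      rw [e1, e2]; noncomm_ring
    rw [h2] at e
    exact sub_eq_zero.mp e
  have q00 : A' 0 0 = D 0 0 := by
    have := congrFun (congrFun hyA 0) 0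
    simpa [Matrix.mul_apply, Fin.sum_univ_two] using this
  have q01 : A' 0 1 = D 0 1 * N := by
    have := congrFun (congrFun hyA 0) 1
    simpa [Matrix.mul_apply, Fin.sum_univ_two] using this
  have q10 : N * A' 1 0 = D 1 0 := by
    have := congrFun (congrFun hyA 1) 0
    simpa [Matrix.mul_apply, Fin.sum_univ_two] using this
  have q11 : A' 1 1 = D 1 1 := by
    have := congrFun (congrFun hyA 1) 1
    simp [Matrix.mul_apply, Fin.sum_univ_two] at this
    have h3 : N * (A' 1 1 - D 1 1) = 0 := by linear_combination this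
    rcases mul_eq_zero.mp h3 with h | h
    · exact absurd h hN
    · linarith
  have hdet : (f + g*p) * (f + g*s) + g^2 * (N * M) = 1 := by
    linear_combination hfg + g^2 * hps
  refine cell_core A B C D A' C' k
    (!![D 0 0 - f - g*p, D 0 1 + g*M; A' 1 0 - g, -v])
    (!![g*N + (s-p)*w, M*w; -w, g]) (!![0, -M; 1, s - p]) (!![1, 0; 0, N])
    (!![f + g*p, -(g*M); g*N, f + g*s]) (!![f + g*s, g*M; -(g*N), f + g*p])
    (!![f + g*p, -(N*g*M); g, f + g*s]) (!![f + g*s, N*g*M; -g, f + g*p])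
    h1 h2 hy hy' ?_ ?_ ?_ ?_ ?_ ?_ ?_
  · apply M2_ext
    · simp [Matrix.mul_apply, Fin.sum_univ_two]; ring
    · simp [Matrix.mul_apply, Fin.sum_univ_two]
    · simp [Matrix.mul_apply, Fin.sum_univ_two]
      linear_combination q10
    · simp [Matrix.mul_apply, Fin.sum_univ_two]
      linear_combination hv
  · apply M2_ext
    · simp [Matrix.mul_apply, Fin.sum_univ_two]
      linear_combination -q00
    · simp [Matrix.mul_apply, Fin.sum_univ_two]
      linear_combination -q01
    · simp [Matrix.mul_apply, Fin.sum_univ_two]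
    · simp [Matrix.mul_apply, Fin.sum_univ_two]
      linear_combination -q11 + hv
  · apply M2_ext
    · simp [Matrix.mul_apply, Fin.sum_univ_two]
      linear_combination hw
    · simp [Matrix.mul_apply, Fin.sum_univ_two]; ring
    · simp [Matrix.mul_apply, Fin.sum_univ_two]
    · simp [Matrix.mul_apply, Fin.sum_univ_two]
      linear_combination hw
  · apply M2_ext
    · simp [Matrix.mul_apply, Fin.sum_univ_two]
      linear_combination hw
    · simp [Matrix.mul_apply, Fin.sum_univ_two]; ring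
    · simp [Matrix.mul_apply, Fin.sum_univ_two]
    · simp [Matrix.mul_apply, Fin.sum_univ_two]
      linear_combination hw
  · apply M2_ext
    · simp [Matrix.mul_apply, Fin.sum_univ_two]
      linear_combination hdet
    · simp [Matrix.mul_apply, Fin.sum_univ_two]; ring
    · simp [Matrix.mul_apply, Fin.sum_univ_two]; ring
    · simp [Matrix.mul_apply, Fin.sum_univ_two]
      linear_combination hdet
  · apply M2_ext
    · simp [Matrix.mul_apply, Fin.sum_univ_two]
      linear_combination hdet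
    · simp [Matrix.mul_apply, Fin.sum_univ_two]; ring
    · simp [Matrix.mul_apply, Fin.sum_univ_two]; ring
    · simp [Matrix.mul_apply, Fin.sum_univ_two]
      linear_combination hdet
  · apply M2_ext
    · simp [Matrix.mul_apply, Fin.sum_univ_two]
      linear_combination hdet
    · simp [Matrix.mul_apply, Fin.sum_univ_two]; ring
    · simp [Matrix.mul_apply, Fin.sum_univ_two]; ring
    · simp [Matrix.mul_apply, Fin.sum_univ_two]
      linear_combination hdet

/-- Conjugation of six block letters by a block diagonal matrix. -/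
theorem RC6_conj {A B C D P Pi Q Qi : M2} (hP : P * Pi = 1) (hP' : Pi * P = 1)
    (hQ : Q * Qi = 1) (hQ' : Qi * Q = 1)
    (h : RC6 (b4 (Q * A * Qi) (Q * B * P) (Pi * C * Qi) (Pi * D * P))) :
    RC6 (b4 A B C D) := by
  obtain ⟨X1, X2, X3, X4, X5, X6, h⟩ := h
  have e0 : b4 A B C D = b4 Qi 0 0 P * b4 (Q * A * Qi) (Q * B * P) (Pi * C * Qi) (Pi * D * P) *
      b4 Q 0 0 Pi := by
    rw [b4_mul, b4_mul]
    congr 1
    · have : (Qi * (Q * A * Qi) + 0 * (Pi * C * Qi)) * Q + (Qi * (Q * B * P) + 0 * (Pi * D * P)) * 0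
        = (Qi * Q) * A * (Qi * Q) := by noncomm_ring
      rw [this, hQ']; noncomm_ring
    · have : (Qi * (Q * A * Qi) + 0 * (Pi * C * Qi)) * 0 + (Qi * (Q * B * P) + 0 * (Pi * D * P)) * Pi
        = (Qi * Q) * B * (P * Pi) := by noncomm_ring
      rw [this, hQ', hP]; noncomm_ring
    · have : (0 * (Q * A * Qi) + P * (Pi * C * Qi)) * Q + (0 * (Q * B * P) + P * (Pi * D * P)) * 0
        = (P * Pi) * C * (Qi * Q) := by noncomm_ring
      rw [this, hQ', hP]; noncomm_ring
    · have : (0 * (Q * A * Qi) + P * (Pi * C * Qi)) * 0 + (0 * (Q * B * P) + P * (Pi * D * P)) * Pi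
        = (P * Pi) * D * (P * Pi) := by noncomm_ring
      rw [this, hP]; noncomm_ring
  have e1 : b4 Qi 0 0 P * b4 Q 0 0 Pi = 1 := by
    rw [b4_mul, ← b4_one]
    congr 1
    · rw [hQ']; noncomm_ring
    · noncomm_ring
    · noncomm_ring
    · rw [hP]; noncomm_ring
  have e1' : b4 Q 0 0 Pi * b4 Qi 0 0 P = 1 := by
    rw [b4_mul, ← b4_one]
    congr 1
    · rw [hQ]; noncomm_ring
    · noncomm_ring
    · noncomm_ring
    · rw [hP']; noncomm_ring
  have eR : ∀ X : M2, b4 Qi 0 0 P * b4 1 X 0 1 * b4 Q 0 0 Pi = b4 1 (Qi * X * Pi) 0 1 := by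
    intro X
    rw [b4_mul, b4_mul]
    congr 1
    · have : (Qi * 1 + 0 * 0) * Q + (Qi * X + 0 * 1) * 0 = Qi * Q := by noncomm_ring
      rw [this, hQ']
    · noncomm_ring
    · noncomm_ring
    · have : (0 * 1 + P * 0) * 0 + (0 * X + P * 1) * Pi = P * Pi := by noncomm_ring
      rw [this, hP]
  have eC : ∀ X : M2, b4 Qi 0 0 P * b4 1 0 X 1 * b4 Q 0 0 Pi = b4 1 0 (P * X * Q) 1 := by
    intro X
    rw [b4_mul, b4_mul]
    congr 1
    · have : (Qi * 1 + 0 * X) * Q + (Qi * 0 + 0 * 1) * 0 = Qi * Q := by noncomm_ring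
      rw [this, hQ']
    · noncomm_ring
    · noncomm_ring
    · have : (0 * 1 + P * X) * 0 + (0 * 0 + P * 1) * Pi = P * Pi := by noncomm_ring
      rw [this, hP]
  refine ⟨Qi * X1 * Pi, P * X2 * Q, Qi * X3 * Pi, P * X4 * Q, Qi * X5 * Pi, P * X6 * Q, ?_⟩
  rw [e0, h, ← eR, ← eC, ← eR, ← eC, ← eR, ← eC]
  generalize b4 Qi 0 0 P = G at *
  generalize b4 Q 0 0 Pi = H at *
  simp only [mul_assoc]
  simp only [← mul_assoc H G, e1', one_mul]

end Pool.Agent.Lib.MP_efa98f_al.F4
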