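import Pool.Agent.Lib.MP_efa98f_al.W11.Cell

namespace Pool.Agent.Lib.MP_efa98f_al.F4

open Matrix

theorem b4_inj {A B C D A' B' C' D' : M2} (h : b4 A B C D = b4 A' B' C' D') :
    A = A' ∧ B = B' ∧ C = C' ∧ D = D' := by
  have h00 := congrFun (congrFun h 0) 0
  have h01 := congrFun (congrFun h 0) 1
  have h02 := congrFun (congrFun h 0) 2
  have h03 := congrFun (congrFun h 0) 3
  have h10 := congrFun (congrFun h 1) 0
  have h11 := congrFun (congrFun h 1) 1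
  have h12 := congrFun (congrFun h 1) 2
  have h13 := congrFun (congrFun h 1) 3
  have h20 := congrFun (congrFun h 2) 0
  have h21 := congrFun (congrFun h 2) 1
  have h22 := congrFun (congrFun h 2) 2
  have h23 := congrFun (congrFun h 2) 3
  have h30 := congrFun (congrFun h 3) 0
  have h31 := congrFun (congrFun h 3) 1
  have h32 := congrFun (congrFun h 3) 2
  have h33 := congrFun (congrFun h 3) 3
  simp [b4] at h00 h01 h02 h03 h10 h11 h12 h13 h20 h21 h22 h23 h30 h31 h32 h33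
  exact ⟨M2_ext h00 h01 h10 h11, M2_ext h02 h03 h12 h13, M2_ext h20 h21 h30 h31,
    M2_ext h22 h23 h32 h33⟩

theorem exists_b4 (M : Matrix (Fin 4) (Fin 4) ℤ) : ∃ A B C D : M2, M = b4 A B C D := by
  refine ⟨!![M 0 0, M 0 1; M 1 0, M 1 1], !![M 0 2, M 0 3; M 1 2, M 1 3],
    !![M 2 0, M 2 1; M 3 0, M 3 1], !![M 2 2, M 2 3; M 3 2, M 3 3], ?_⟩
  ext i j
  fin_cases i <;> fin_cases j <;> simp [b4]

/-- Products of six block elementary matrices. -/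
def RC3 (g : SLn 4) : Prop :=
  ∃ X1 X2 X3 X4 X5 X6 : M2, g = RB X1 * CB X2 * RB X3 * CB X4 * RB X5 * CB X6

theorem SL_inv_mul (P : SLn 2) : P⁻¹.1 * P.1 = 1 := by rw [← SL_val_mul, inv_mul_cancel]; rfl
theorem SL_mul_inv (P : SLn 2) : P.1 * P⁻¹.1 = 1 := by rw [← SL_val_mul, mul_inv_cancel]; rfl

theorem DB_RB (X : M2) (P : SLn 2 × SLn 2) :
    DB P * RB X = RB (P.1.1 * X * P.2⁻¹.1) * DB P := by
  rw [RB_DB]
  have : P.1⁻¹.1 * (P.1.1 * X * P.2⁻¹.1) * P.2.1 = X := by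
    calc P.1⁻¹.1 * (P.1.1 * X * P.2⁻¹.1) * P.2.1
        = (P.1⁻¹.1 * P.1.1) * X * (P.2⁻¹.1 * P.2.1) := by simp only [mul_assoc]
      _ = X := by rw [SL_inv_mul, SL_inv_mul, one_mul, mul_one]
  rw [this]

theorem DB_CB (X : M2) (P : SLn 2 × SLn 2) :
    DB P * CB X = CB (P.2.1 * X * P.1⁻¹.1) * DB P := by
  rw [CB_DB]
  have : P.2⁻¹.1 * (P.2.1 * X * P.1⁻¹.1) * P.1.1 = X := by
    calc P.2⁻¹.1 * (P.2.1 * X * P.1⁻¹.1) * P.1.1
        = (P.2⁻¹.1 * P.2.1) * X * (P.1⁻¹.1 * P.1.1) := by simp only [mul_assoc]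
      _ = X := by rw [SL_inv_mul, SL_inv_mul, one_mul, mul_one]
  rw [this]

theorem CB_mul_CB (X Y : M2) : CB X * CB Y = CB (X + Y) := by
  apply Subtype.ext
  rw [SL_val_mul, CB_val, CB_val, CB_val, b4_mul]
  congr 1 <;> simp

theorem CB_zero : CB 0 = 1 := by
  apply Subtype.ext
  rw [CB_val, b4_one]; rfl

theorem CB_inv (X : M2) : (CB X)⁻¹ = CB (-X) := by
  rw [inv_eq_iff_mul_eq_one, CB_mul_CB, add_neg_cancel, CB_zero]

theorem RC3.conj {h : SLn 4} (hh : RC3 h) (P : SLn 2 × SLn 2) : RC3 (DB P * h * (DB P)⁻¹) := by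
  obtain ⟨X1, X2, X3, X4, X5, X6, rfl⟩ := hh
  refine ⟨P.1.1 * X1 * P.2⁻¹.1, P.2.1 * X2 * P.1⁻¹.1, P.1.1 * X3 * P.2⁻¹.1,
    P.2.1 * X4 * P.1⁻¹.1, P.1.1 * X5 * P.2⁻¹.1, P.2.1 * X6 * P.1⁻¹.1, ?_⟩
  rw [mul_inv_eq_iff_eq_mul]
  calc DB P * (RB X1 * CB X2 * RB X3 * CB X4 * RB X5 * CB X6)
      = (DB P * RB X1) * (CB X2 * (RB X3 * (CB X4 * (RB X5 * CB X6)))) := by simp only [mul_assoc]
    _ = RB (P.1.1 * X1 * P.2⁻¹.1) * ((DB P * CB X2) * (RB X3 * (CB X4 * (RB X5 * CB X6)))) := by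
        rw [DB_RB]; simp only [mul_assoc]
    _ = RB (P.1.1 * X1 * P.2⁻¹.1) * (CB (P.2.1 * X2 * P.1⁻¹.1) *
          ((DB P * RB X3) * (CB X4 * (RB X5 * CB X6)))) := by
        rw [DB_CB]; simp only [mul_assoc]
    _ = RB (P.1.1 * X1 * P.2⁻¹.1) * (CB (P.2.1 * X2 * P.1⁻¹.1) *
          (RB (P.1.1 * X3 * P.2⁻¹.1) * ((DB P * CB X4) * (RB X5 * CB X6)))) := by
        rw [DB_RB]; simp only [mul_assoc]
    _ = RB (P.1.1 * X1 * P.2⁻¹.1) * (CB (P.2.1 * X2 * P.1⁻¹.1) *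
          (RB (P.1.1 * X3 * P.2⁻¹.1) * (CB (P.2.1 * X4 * P.1⁻¹.1) *
            ((DB P * RB X5) * CB X6)))) := by
        rw [DB_CB]; simp only [mul_assoc]
    _ = RB (P.1.1 * X1 * P.2⁻¹.1) * (CB (P.2.1 * X2 * P.1⁻¹.1) *
          (RB (P.1.1 * X3 * P.2⁻¹.1) * (CB (P.2.1 * X4 * P.1⁻¹.1) *
            (RB (P.1.1 * X5 * P.2⁻¹.1) * (DB P * CB X6))))) := by
        rw [DB_RB]; simp only [mul_assoc]
    _ = _ := by rw [DB_CB]; simp only [mul_assoc]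

theorem RC3.mulC {h : SLn 4} (hh : RC3 h) (Z : M2) : RC3 (h * CB Z) := by
  obtain ⟨X1, X2, X3, X4, X5, X6, rfl⟩ := hh
  exact ⟨X1, X2, X3, X4, X5, X6 + Z, by rw [mul_assoc _ (CB X6), CB_mul_CB]⟩

/-- Products of six block elementary matrices and a block diagonal matrix. -/
def Core (g : SLn 4) (A : SLn 2 × SLn 2) : Prop := ∃ h, RC3 h ∧ g = h * DB A

theorem Core.conj {g : SLn 4} {A : SLn 2 × SLn 2} (h : Core g A) (P Q : SLn 2 × SLn 2) :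
    Core (DB P * g * DB Q) (P * A * Q) := by
  obtain ⟨h, hh, rfl⟩ := h
  refine ⟨_, hh.conj P, ?_⟩
  rw [map_mul, map_mul]
  group

theorem Core.mulC {g : SLn 4} {A : SLn 2 × SLn 2} (h : Core g A) (Z : M2) :
    Core (g * CB Z) A := by
  obtain ⟨h, hh, rfl⟩ := h
  refine ⟨_, hh.mulC (A.2.1 * Z * A.1⁻¹.1), ?_⟩
  rw [mul_assoc, DB_CB, ← mul_assoc]

theorem Core.six {g : SLn 4} {A : SLn 2 × SLn 2} (h : Core g A)
    (hA : SixIn ((Up 2).prod (Up 2)) ((Lo 2).prod (Lo 2)) A) : Six g := by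
  obtain ⟨h, ⟨X1, X2, X3, X4, X5, X6, rfl⟩, rfl⟩ := h
  exact merge_b4 hA

theorem core_of_blocks (k : SLn 4) (A B D As Bs Ds : M2) (N : ℤ) (hN : ¬ (4 : ℤ) ∣ N)
    (hk : k.1 = b4 A B !![1, 0; 0, N] D) (hki : k⁻¹.1 = b4 As Bs (-!![1, 0; 0, N]) Ds) :
    RC3 k := by
  have h1 : k.1 * k⁻¹.1 = b4 1 0 0 1 := by rw [← SL_val_mul, mul_inv_cancel, b4_one]; rfl
  rw [hk, hki, b4_mul] at h1
  obtain ⟨h10, -, h11, h12⟩ := b4_inj h1
  obtain ⟨X1, X2, X3, X4, X5, X6, h⟩ := cell_one A B !![1, 0; 0, N] D As Bs (-!![1, 0; 0, N]) Ds 0 N hN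
    h10 h11 h12 (by simp) (by simp)
  refine ⟨X1, X2, X3, X4, X5, X6, ?_⟩
  apply Subtype.ext
  rw [hk, h]
  rfl

theorem DB_inv (P : SLn 2 × SLn 2) : (DB P)⁻¹ = DB P⁻¹ := (map_inv DB P).symm

theorem four_six (g : SLn 4) (P Q : SLn 2 × SLn 2) (A B C D As Bs Cs Ds Z : M2)
    (x y x' y' N : ℤ) (hN : ¬ (4 : ℤ) ∣ N)
    (hg : (DB P * g * DB Q).1 = b4 A B C D) (hgi : (DB P * g * DB Q)⁻¹.1 = b4 As Bs Cs Ds)
    (hY : C + D * Z = ll x * !![1, 0; 0, N] * uu y)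
    (hY' : Z * As - Cs = ll x' * !![1, 0; 0, N] * uu y')
    (hw : SixIn ((Up 2).prod (Up 2)) ((Lo 2).prod (Lo 2))
      (P⁻¹ * (Ue (y - y'), Le (x - x')) * Q⁻¹)) : Six g := by
  obtain ⟨g1, hg1⟩ : ∃ g1 : SLn 4, g1 = DB P * g * DB Q := ⟨_, rfl⟩
  rw [← hg1] at hg hgi
  obtain ⟨k, hk⟩ : ∃ k : SLn 4, k = g1 * CB Z := ⟨_, rfl⟩
  have hkv : k.1 = b4 (A + B * Z) B (C + D * Z) D := by
    rw [hk, SL_val_mul, hg, CB_val, b4_mul]; congr 1 <;> simp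
  have hkiv : k⁻¹.1 = b4 As Bs (Cs - Z * As) (Ds - Z * Bs) := by
    rw [hk, _root_.mul_inv_rev, CB_inv, SL_val_mul, hgi, CB_val, b4_mul]
    congr 1
    · simp
    · simp
    · rw [neg_mul, one_mul]; abel
    · rw [neg_mul, one_mul]; abel
  obtain ⟨k2, hk2⟩ : ∃ k2 : SLn 4, k2 = DB (Ue y', Le (-x)) * k * DB (Ue (-y), Le x') := ⟨_, rfl⟩
  have hk2v : k2.1 = b4 (uu y' * (A + B * Z) * uu (-y)) (uu y' * B * ll x') !![1, 0; 0, N]
      (ll (-x) * D * ll x') := by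
    rw [hk2, SL_val_mul, SL_val_mul, hkv, DB_val, DB_val, b4_mul, b4_mul]
    simp only [Ue_val, Le_val, zero_mul, mul_zero, add_zero, zero_add]
    congr 1
    rw [hY]
    calc ll (-x) * (ll x * !![1, 0; 0, N] * uu y) * uu (-y)
        = (ll (-x) * ll x) * !![1, 0; 0, N] * (uu y * uu (-y)) := by simp only [mul_assoc]
      _ = !![1, 0; 0, N] := by
        rw [ll_mul_ll, uu_mul_uu, neg_add_cancel, add_neg_cancel, ll_zero, uu_zero, one_mul, mul_one]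
  have hk2iv : k2⁻¹.1 = b4 (uu y * As * uu (-y')) (uu y * Bs * ll x) (-!![1, 0; 0, N])
      (ll (-x') * (Ds - Z * Bs) * ll x) := by
    have e : k2⁻¹ = DB (Ue y, Le (-x')) * k⁻¹ * DB (Ue (-y'), Le x) := by
      rw [hk2, _root_.mul_inv_rev, _root_.mul_inv_rev, DB_inv, DB_inv, Prod.inv_mk, Prod.inv_mk,
        Ue_inv, Ue_inv, Le_inv, Le_inv, neg_neg, neg_neg, mul_assoc]
    rw [e, SL_val_mul, SL_val_mul, hkiv, DB_val, DB_val, b4_mul, b4_mul]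
    simp only [Ue_val, Le_val, zero_mul, mul_zero, add_zero, zero_add]
    congr 1
    have e2 : Cs - Z * As = -(ll x' * !![1, 0; 0, N] * uu y') := by rw [← hY']; abel
    rw [e2]
    calc ll (-x') * -(ll x' * !![1, 0; 0, N] * uu y') * uu (-y')
        = -((ll (-x') * ll x') * !![1, 0; 0, N] * (uu y' * uu (-y'))) := by
          rw [mul_neg, neg_mul]; simp only [mul_assoc]
      _ = -!![1, 0; 0, N] := by
        rw [ll_mul_ll, uu_mul_uu, neg_add_cancel, add_neg_cancel, ll_zero, uu_zero, one_mul, mul_one]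
  have hrc : RC3 k2 := core_of_blocks k2 _ _ _ _ _ _ N hN hk2v hk2iv
  have c0 : Core k2 1 := ⟨k2, hrc, by rw [map_one, mul_one]⟩
  have c1 := c0.conj (Ue (-y'), Le x) (Ue y, Le (-x'))
  have ek : DB (Ue (-y'), Le x) * k2 * DB (Ue y, Le (-x')) = k := by
    rw [hk2]
    have a1 : DB (Ue (-y'), Le x) = (DB (Ue y', Le (-x)))⁻¹ := by
      rw [DB_inv, Prod.inv_mk, Ue_inv, Le_inv, neg_neg]
    have a2 : DB (Ue y, Le (-x')) = (DB (Ue (-y), Le x'))⁻¹ := by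
      rw [DB_inv, Prod.inv_mk, Ue_inv, Le_inv, neg_neg]
    rw [a1, a2]
    group
  rw [ek] at c1
  have c2 := c1.mulC (-Z)
  have ek2 : k * CB (-Z) = g1 := by
    rw [hk, mul_assoc, CB_mul_CB, add_neg_cancel, CB_zero, mul_one]
  rw [ek2] at c2
  have c3 := c2.conj P⁻¹ Q⁻¹
  have ek3 : DB P⁻¹ * g1 * DB Q⁻¹ = g := by
    rw [hg1, ← DB_inv, ← DB_inv]; group
  rw [ek3] at c3
  refine c3.six ?_
  have : (Ue (-y'), Le x) * (1 : SLn 2 × SLn 2) * (Ue y, Le (-x')) = (Ue (y - y'), Le (x - x')) := by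
    rw [mul_one, Prod.mk_mul_mk]
    congr 1
    · apply Subtype.ext
      rw [SL_val_mul, Ue_val, Ue_val, Ue_val, uu_mul_uu]
      congr 1; ring
    · apply Subtype.ext
      rw [SL_val_mul, Le_val, Le_val, Le_val, ll_mul_ll]
      congr 1
  rw [this]
  exact hw

end Pool.Agent.Lib.MP_efa98f_al.F4
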